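import Pool.Agent.Q213.PM.Stm

/-!
# Project PM (helper213), job CELL: attaching cells
-/

set_option autoImplicit false

universe u

open CategoryTheory Limits Opposite Simplicial HomotopicalAlgebra MonoidalCategory
open SSet.modelCategoryQuillen

namespace Pool.Agent.Q153.PM

open Pool.Agent.Q213.PM

/-- a functional simplicial relation is the graph of a map -/
theorem glue {X K : SSet.{u}} (G : ∀ m : SimplexCategoryᵒᵖ, X.obj m → K.obj m → Prop)
    (hc : ∀ {m m' : SimplexCategoryᵒᵖ} (θ : m ⟶ m') (x : X.obj m) (k : K.obj m), G m x k →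
      G m' (X.map θ x) (K.map θ k))
    (he : ∀ (m : SimplexCategoryᵒᵖ) (x : X.obj m), ∃ k, G m x k)
    (hu : ∀ (m : SimplexCategoryᵒᵖ) (x : X.obj m) (k k' : K.obj m), G m x k → G m x k' → k = k') :
    ∃ F : X ⟶ K, ∀ (m : SimplexCategoryᵒᵖ) (x : X.obj m), G m x (F.app m x) := by
  choose F hF using he
  refine ⟨{ app := fun m => ↾(F m), naturality := ?_ }, ?_⟩
  · intro m m' θ
    ext x
    exact hu m' _ _ _ (hF m' (X.map θ x)) (hc θ x _ (hF m x))
  · intro m x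
    exact hF m x

section

variable {B : SSet.{u}} {n : ℕ}

theorem lemA (b : B.nonDegenerate n) {k : ℕ} (t : (Δ[n] : SSet.{u}) _⦋k⦌)
    (ht : t ∉ (∂Δ[n] : (Δ[n] : SSet.{u}).Subcomplex).obj (op ⦋k⦌)) :
    ∃ (s : ⦋k⦌ ⟶ ⦋n⦌) (_ : Epi s), SSet.stdSimplex.objEquiv t = s ∧
      (SSet.yonedaEquiv.symm b.1 : Δ[n] ⟶ B).app _ t = B.map s.op b.1 := by
  refine ⟨SSet.stdSimplex.objEquiv t, ?_, rfl, rfl⟩
  simpa [SimplexCategory.epi_iff_surjective, SSet.boundary] using! ht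

theorem lemA' (b : B.nonDegenerate n) {k : ℕ} (t : (Δ[n] : SSet.{u}) _⦋k⦌)
    (ht : t ∉ (∂Δ[n] : (Δ[n] : SSet.{u}).Subcomplex).obj (op ⦋k⦌)) :
    (SSet.yonedaEquiv.symm b.1 : Δ[n] ⟶ B).app _ t ∉ (B.skeleton n).obj _ := by
  obtain ⟨s, hs, -, h⟩ := lemA b t ht
  rw [h]
  intro hcon
  have hsp := isSplitEpi_of_epi s
  have h1 := (B.skeleton n).map (section_ s).op hcon
  have h2 : B.map (section_ s).op (B.map s.op b.1) = b.1 := by
    rw [← comp_apply, ← Functor.map_comp, ← op_comp, IsSplitEpi.id, op_id, CategoryTheory.Functor.map_id]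
    rfl
  rw [Set.mem_preimage, h2, SSet.mem_skeleton_obj_iff_of_nonDegenerate] at h1
  exact lt_irrefl _ h1

theorem lemB (β : Δ[n] ⟶ B) {k : ℕ} (t : (Δ[n] : SSet.{u}) _⦋k⦌)
    (ht : t ∈ (∂Δ[n] : (Δ[n] : SSet.{u}).Subcomplex).obj (op ⦋k⦌)) :
    β.app _ t ∈ (B.skeleton n).obj _ := by
  obtain ⟨d, f, hf, y, hy⟩ := SSet.exists_nonDegenerate (∂Δ[n] : (Δ[n] : SSet.{u}).Subcomplex).toSSet ⟨t, ht⟩
  have hd : d < n := SSet.dim_lt_of_nonDegenerate _ y n
  have h1 : t = (Δ[n] : SSet.{u}).map f.op y.1.1 := congrArg Subtype.val hy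
  have h2 : β.app _ t = B.map f.op (β.app _ y.1.1) := by
    rw [h1]
    exact NatTrans.naturality_apply β f.op y.1.1
  rw [h2]
  exact (B.skeleton n).map f.op (SSet.mem_skeleton _ _ hd)

end

/-- the simplices of the next skeleton -/
theorem lemD {B : SSet.{u}} {n k : ℕ} (y : B _⦋k⦌) (hy : y ∈ (B.skeleton (n + 1)).obj _) :
    y ∈ (B.skeleton n).obj _ ∨ ∃ (b : B.nonDegenerate n) (s : ⦋k⦌ ⟶ ⦋n⦌), B.map s.op b.1 = y := by
  rw [SSet.skeleton_succ] at hy
  rcases hy with hz | hz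
  · exact Or.inl hz
  · rw [Subfunctor.iSup_obj, Set.mem_iUnion] at hz
    obtain ⟨b, hb⟩ := hz
    rw [SSet.Subcomplex.mem_ofSimplex_obj_iff] at hb
    obtain ⟨s, hs⟩ := hb
    exact Or.inr ⟨b, s, hs⟩

/-- uniqueness of the Eilenberg-Zilber decomposition -/
theorem lemC {B : SSet.{u}} {n : ℕ} (b b' : B.nonDegenerate n) {k : ℕ} (t t' : (Δ[n] : SSet.{u}) _⦋k⦌)
    (ht : t ∉ (∂Δ[n] : (Δ[n] : SSet.{u}).Subcomplex).obj (op ⦋k⦌))
    (ht' : t' ∉ (∂Δ[n] : (Δ[n] : SSet.{u}).Subcomplex).obj (op ⦋k⦌))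
    (h : (SSet.yonedaEquiv.symm b.1 : Δ[n] ⟶ B).app _ t = (SSet.yonedaEquiv.symm b'.1 : Δ[n] ⟶ B).app _ t') :
    b = b' ∧ t = t' := by
  obtain ⟨s, hs, hst, h1⟩ := lemA b t ht
  obtain ⟨s', hs', hst', h1'⟩ := lemA b' t' ht'
  have h2 : B.map s.op b.1 = B.map s'.op b'.1 := by rw [← h1, h, h1']
  have hb := SSet.unique_nonDegenerate_simplex B (B.map s.op b.1) s b rfl s' b' h2
  have hss := SSet.unique_nonDegenerate_map B (B.map s.op b.1) s b rfl s' b' h2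
  refine ⟨hb, ?_⟩
  apply SSet.stdSimplex.objEquiv.injective
  rw [hst, hst', hss]

theorem pbExt {W Z X B : SSet.{u}} {fst : W ⟶ Z} {snd : W ⟶ X} {r : Z ⟶ B} {b : X ⟶ B}
    (h : IsPullback fst snd r b) {m : SimplexCategoryᵒᵖ} {w w' : W.obj m} (h1 : fst.app m w = fst.app m w')
    (h2 : snd.app m w = snd.app m w') : w = w' :=
  Types.ext_of_isPullback (h.map ((evaluation _ _).obj m)) h1 h2

theorem pbEx {W Z X B : SSet.{u}} {fst : W ⟶ Z} {snd : W ⟶ X} {r : Z ⟶ B} {b : X ⟶ B}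
    (h : IsPullback fst snd r b) {m : SimplexCategoryᵒᵖ} (z : Z.obj m) (x : X.obj m)
    (h1 : r.app m z = b.app m x) : ∃ w : W.obj m, fst.app m w = z ∧ snd.app m w = x :=
  Types.exists_of_isPullback (h.map ((evaluation _ _).obj m)) z x h1

theorem pbW {W Z X B : SSet.{u}} {fst : W ⟶ Z} {snd : W ⟶ X} {r : Z ⟶ B} {b : X ⟶ B}
    (h : IsPullback fst snd r b) {m : SimplexCategoryᵒᵖ} (w : W.obj m) :
    r.app m (fst.app m w) = b.app m (snd.app m w) := by
  have h1 := congrArg (fun f => f.app m) h.w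
  exact congrArg (fun f => f w) h1

theorem cell : S_CELL.{u} := by
  intro Z B r E n hAc h K L q hq
  constructor
  intro f g sq
  -- the cells
  let W : B.nonDegenerate n → SSet.{u} := fun b => pullback r (SSet.yonedaEquiv.symm b.1 : Δ[n] ⟶ B)
  let p1 : ∀ b, W b ⟶ Z := fun b => pullback.fst _ _
  let p2 : ∀ b, W b ⟶ Δ[n] := fun b => pullback.snd _ _
  have hpb : ∀ b, IsPullback (p1 b) (p2 b) r (SSet.yonedaEquiv.symm b.1 : Δ[n] ⟶ B) :=
    fun b => IsPullback.of_hasPullback _ _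
  let D : ∀ b, (W b).Subcomplex := fun b => E.preimage (p1 b) ⊔ ∂Δ[n].preimage (p2 b)
  have hbot : ∀ b, SSet.Subcomplex.range (p1 b) ≤ E ⊔ (B.skeleton (n + 1)).preimage r := by
    intro b m z hz
    obtain ⟨w, rfl⟩ := hz
    right
    show r.app m ((p1 b).app m w) ∈ (B.skeleton (n + 1)).obj m
    rw [pbW (hpb b) w]
    exact (B.skeleton (n + 1)).map (SSet.stdSimplex.objEquiv ((p2 b).app m w)).op
      (SSet.mem_skeleton _ b.1 (Nat.lt_succ_self n))
  have htop : ∀ b, SSet.Subcomplex.range ((D b).ι ≫ p1 b) ≤ E ⊔ (B.skeleton n).preimage r := by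
    rintro b ⟨⟨k⟩⟩ z hz
    obtain ⟨w, rfl⟩ := hz
    rcases w.2 with hw | hw
    · left
      exact hw
    · right
      show r.app _ ((p1 b).app _ w.1) ∈ (B.skeleton n).obj _
      rw [pbW (hpb b) w.1]
      exact lemB _ _ hw
  have hlift : ∀ b, ∃ l : W b ⟶ K, (D b).ι ≫ l = SSet.Subcomplex.lift _ (htop b) ≫ f ∧
      l ≫ q = SSet.Subcomplex.lift _ (hbot b) ≫ g := by
    intro b
    have h1 : Ac (D b).ι := hAc _ (W b) (p1 b) (p2 b) (hpb b)
    have h2 : HasLiftingProperty (D b).ι q := h1 q hq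
    have h3 : CommSq (SSet.Subcomplex.lift _ (htop b) ≫ f) (D b).ι q (SSet.Subcomplex.lift _ (hbot b) ≫ g) := by
      constructor
      rw [Category.assoc, sq.w]
      rfl
    exact ⟨h3.lift, h3.fac_left, h3.fac_right⟩
  choose l hl1 hl2 using hlift
  have hstar : ∀ (k : ℕ) (b : B.nonDegenerate n) (w : (W b) _⦋k⦌)
      (hz : (p1 b).app _ w ∈ (E ⊔ (B.skeleton n).preimage r).obj _),
      (l b).app _ w = f.app _ ⟨_, hz⟩ := by
    intro k b w hz
    have hw : w ∈ (D b).obj _ := by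
      rcases hz with hz | hz
      · left
        exact hz
      · right
        by_contra hcon
        apply lemA' b _ hcon
        rw [← pbW (hpb b) w]
        exact hz
    have h1 := congrArg (fun F => F.app (op ⦋k⦌)) (hl1 b)
    exact congrArg (fun F => F ⟨w, hw⟩) h1
  let G : ∀ m : SimplexCategoryᵒᵖ, (E ⊔ (B.skeleton (n + 1)).preimage r).toSSet.obj m → K.obj m → Prop :=
    fun m z k => (∃ hz : z.1 ∈ (E ⊔ (B.skeleton n).preimage r).obj m, f.app m ⟨z.1, hz⟩ = k) ∨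
      ∃ (b : B.nonDegenerate n) (w : (W b).obj m), (p1 b).app m w = z.1 ∧ (l b).app m w = k
  have hin : ∀ (k : ℕ) (z : (E ⊔ (B.skeleton (n + 1)).preimage r).toSSet _⦋k⦌) (x : K _⦋k⦌)
      (hz : z.1 ∈ (E ⊔ (B.skeleton n).preimage r).obj _), G _ z x → x = f.app _ ⟨z.1, hz⟩ := by
    rintro k z x hz (⟨hz', h1⟩ | ⟨b, w, h1, h2⟩)
    · exact h1.symm
    · obtain ⟨z, hz0⟩ := z
      dsimp only at h1 hz
      subst h1
      rw [← h2]
      exact hstar k b w hz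
  have hG1 : ∀ {m m' : SimplexCategoryᵒᵖ} (θ : m ⟶ m') (z : (E ⊔ (B.skeleton (n + 1)).preimage r).toSSet.obj m)
      (x : K.obj m), G m z x → G m' ((E ⊔ (B.skeleton (n + 1)).preimage r).toSSet.map θ z) (K.map θ x) := by
    rintro m m' θ z x (⟨hz, h1⟩ | ⟨b, w, h1, h2⟩)
    · left
      refine ⟨(E ⊔ (B.skeleton n).preimage r).map θ hz, ?_⟩
      rw [← h1]
      exact NatTrans.naturality_apply f θ ⟨z.1, hz⟩
    · right
      refine ⟨b, (W b).map θ w, ?_, ?_⟩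
      · rw [NatTrans.naturality_apply, h1]
        rfl
      · rw [NatTrans.naturality_apply, h2]
  have hG2 : ∀ (m : SimplexCategoryᵒᵖ) (z : (E ⊔ (B.skeleton (n + 1)).preimage r).toSSet.obj m), ∃ x, G m z x := by
    rintro ⟨⟨k⟩⟩ z
    rcases z.2 with hz | hz
    · exact ⟨_, Or.inl ⟨Or.inl hz, rfl⟩⟩
    · rcases lemD (r.app _ z.1) hz with hz | ⟨b, s, hs⟩
      · exact ⟨_, Or.inl ⟨Or.inr hz, rfl⟩⟩
      · obtain ⟨w, hw, -⟩ := pbEx (hpb b) z.1 (SSet.stdSimplex.objEquiv.symm s) hs.symm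
        exact ⟨_, Or.inr ⟨b, w, hw, rfl⟩⟩
  have hG3 : ∀ (m : SimplexCategoryᵒᵖ) (z : (E ⊔ (B.skeleton (n + 1)).preimage r).toSSet.obj m)
      (x x' : K.obj m), G m z x → G m z x' → x = x' := by
    rintro ⟨⟨k⟩⟩ z x x' hx hx'
    by_cases hz : z.1 ∈ (E ⊔ (B.skeleton n).preimage r).obj _
    · rw [hin k z x hz hx, hin k z x' hz hx']
    · rcases hx with ⟨hz', -⟩ | ⟨b, w, h1, h2⟩
      · exact absurd hz' hz
      rcases hx' with ⟨hz', -⟩ | ⟨b', w', h1', h2'⟩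
      · exact absurd hz' hz
      have hs : ∀ (c : B.nonDegenerate n) (v : (W c) _⦋k⦌), (p1 c).app _ v = z.1 →
          (p2 c).app _ v ∉ (∂Δ[n] : (Δ[n] : SSet.{u}).Subcomplex).obj (op ⦋k⦌) := by
        intro c v hv hcon
        apply hz
        right
        show r.app _ z.1 ∈ (B.skeleton n).obj _
        rw [← hv, pbW (hpb c) v]
        exact lemB _ _ hcon
      obtain ⟨hbb, htt⟩ := lemC b b' _ _ (hs b w h1) (hs b' w' h1')
        (by rw [← pbW (hpb b) w, ← pbW (hpb b') w', h1, h1'])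
      subst hbb
      have hww : w = w' := pbExt (hpb b) (by rw [h1, h1']) htt
      rw [← h2, ← h2', hww]
  obtain ⟨F, hF⟩ := glue G hG1 hG2 hG3
  · have hFf : SSet.Subcomplex.homOfLE h ≫ F = f := by
      ext ⟨⟨k⟩⟩ x
      have h1 := hin k ((SSet.Subcomplex.homOfLE h).app _ x) _ x.2 (hF _ _)
      exact h1
    have hFg : F ≫ q = g := by
      ext ⟨⟨k⟩⟩ z
      rcases hF _ z with ⟨hz, h1⟩ | ⟨b, w, h1, h2⟩
      · have h3 := congrArg (fun T => T.app (op ⦋k⦌)) sq.w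
        have h4 := congrArg (fun T => T ⟨z.1, hz⟩) h3
        show q.app _ (F.app _ z) = g.app _ z
        rw [← h1]
        exact h4
      · have h3 := congrArg (fun T => T.app (op ⦋k⦌)) (hl2 b)
        have h4 := congrArg (fun T => T w) h3
        show q.app _ (F.app _ z) = g.app _ z
        rw [← h2]
        obtain ⟨z, hz0⟩ := z
        dsimp only at h1
        subst h1
        exact h4
    exact ⟨⟨F, hFf, hFg⟩⟩

end Pool.Agent.Q153.PM
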