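import Pool.Agent.Q213.PM.Stm

/-!
# Project PM (helper213), job TOT: the pullback of the total category along a simplex
-/

set_option autoImplicit false

universe v' u v w

open CategoryTheory Limits Opposite Simplicial HomotopicalAlgebra MonoidalCategory
open SSet.modelCategoryQuillen

namespace Pool.Agent.Q153.PM.Tt

open Pool.Agent.Q213.PM

section Fun

variable {A : Type u} [SmallCategory A] {J : Type v'} [Category.{v'} J]

/-- functors to the total category -/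
def mkF {M : Type w} [Category.{v} M] (U : M ⥤ Aᵒᵖ ⥤ Type u) (μ : J ⥤ M) (α : J ⥤ A)
    (x : ∀ j, (U.obj (μ.obj j)).obj (op (α.obj j)))
    (hx : ∀ {i j : J} (f : i ⟶ j), (U.map (μ.map f)).app (op (α.obj i)) (x i) =
      (U.obj (μ.obj j)).map (α.map f).op (x j)) : J ⥤ Tot U where
  obj j := ⟨μ.obj j, α.obj j, x j⟩
  map f := ⟨μ.map f, α.map f, hx f⟩
  map_id j := Tot.Hom.ext (μ.map_id j) (α.map_id j)
  map_comp f g := Tot.Hom.ext (μ.map_comp f g) (α.map_comp f g)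

/-- the projection of the total category to `A` -/
def tsnd {M : Type w} [Category.{v} M] (U : M ⥤ Aᵒᵖ ⥤ Type u) : Tot U ⥤ A where
  obj x := x.a
  map f := f.g
  map_id _ := rfl
  map_comp _ _ := rfl

theorem exMk {M : Type w} [Category.{v} M] (U : M ⥤ Aᵒᵖ ⥤ Type u) (c : J ⥤ Tot U) :
    ∃ (μ : J ⥤ M) (α : J ⥤ A) (x : ∀ j, (U.obj (μ.obj j)).obj (op (α.obj j)))
    (hx : ∀ {i j : J} (f : i ⟶ j), (U.map (μ.map f)).app (op (α.obj i)) (x i) =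
      (U.obj (μ.obj j)).map (α.map f).op (x j)), c = mkF U μ α x hx ∧ μ = c ⋙ Tot.fst U :=
  ⟨c ⋙ Tot.fst U, c ⋙ tsnd U, fun j => (c.obj j).x, fun f => (c.map f).w, rfl, rfl⟩

variable {M : Type w} [Category.{v} M] {K : Type} [Category.{0} K]

/-- the change of the base -/
def TT (σ : K ⥤ M) (U : M ⥤ Aᵒᵖ ⥤ Type u) : Tot (σ ⋙ U) ⥤ Tot U where
  obj x := ⟨σ.obj x.m, x.a, x.x⟩
  map f := ⟨σ.map f.f, f.g, f.w⟩
  map_id x := Tot.Hom.ext (σ.map_id x.m) rfl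
  map_comp f g := Tot.Hom.ext (σ.map_comp f.f g.f) rfl

theorem exF (σ : K ⥤ M) (U : M ⥤ Aᵒᵖ ⥤ Type u) (c : J ⥤ Tot U) (s : J ⥤ K)
    (h : c ⋙ Tot.fst U = s ⋙ σ) :
    ∃ d : J ⥤ Tot (σ ⋙ U), d ⋙ TT σ U = c ∧ d ⋙ Tot.fst (σ ⋙ U) = s := by
  obtain ⟨μ, α, x, hx, hc, hμ⟩ := exMk U c
  rw [h] at hμ
  subst hμ
  subst hc
  exact ⟨mkF (σ ⋙ U) s α x hx, rfl, rfl⟩

theorem unF (σ : K ⥤ M) (U : M ⥤ Aᵒᵖ ⥤ Type u) (d d' : J ⥤ Tot (σ ⋙ U))
    (h1 : d ⋙ TT σ U = d' ⋙ TT σ U) (h2 : d ⋙ Tot.fst (σ ⋙ U) = d' ⋙ Tot.fst (σ ⋙ U)) : d = d' := by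
  obtain ⟨s, α, x, hx, hd, hs⟩ := exMk (σ ⋙ U) d
  obtain ⟨s', α', x', hx', hd', hs'⟩ := exMk (σ ⋙ U) d'
  have hss : s = s' := by rw [hs, hs', h2]
  clear hs hs' h2
  subst hss
  subst hd
  subst hd'
  have h3 := congrArg (fun c : J ⥤ Tot U => (⟨c ⋙ Tot.fst U, c ⋙ tsnd U, fun j => (c.obj j).x⟩ :
    Σ (μ : J ⥤ M) (α : J ⥤ A), ∀ j, (U.obj (μ.obj j)).obj (op (α.obj j)))) h1
  have h4 : (⟨s ⋙ σ, α, x⟩ : Σ (μ : J ⥤ M) (α : J ⥤ A), ∀ j, (U.obj (μ.obj j)).obj (op (α.obj j))) =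
    ⟨s ⋙ σ, α', x'⟩ := h3
  rw [Sigma.mk.injEq] at h4
  have h5 := eq_of_heq h4.2
  rw [Sigma.mk.injEq] at h5
  obtain ⟨h6, h7⟩ := h5
  subst h6
  have h8 := eq_of_heq h7
  subst h8
  rfl

end Fun

section Ret

variable {A : Type u} [SmallCategory A] {n : ℕ} (V : Fin (n + 1) ⥤ Aᵒᵖ ⥤ Type u)

/-- the retraction to the last place -/
def RR : Tot V ⥤ El (V.obj (Fin.last n)) where
  obj y := ⟨y.a, (V.map (homOfLE (Fin.le_last y.m))).app (op y.a) y.x⟩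
  map {y z} f := ⟨f.g, by
    have h1 := congrArg (fun k => k z.x) ((V.map (homOfLE (Fin.le_last z.m))).naturality f.g.op)
    simp only [types_comp_apply] at h1
    rw [← h1, ← f.w]
    have h2 : V.map (homOfLE (Fin.le_last y.m)) = V.map f.f ≫ V.map (homOfLE (Fin.le_last z.m)) := by
      rw [← V.map_comp]
      rfl
    rw [h2]
    rfl⟩
  map_id y := rfl
  map_comp f g := rfl

/-- the inclusion of the last place -/
def LL : El (V.obj (Fin.last n)) ⥤ Tot V where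
  obj z := ⟨Fin.last n, z.pt, z.el⟩
  map {y z} f := ⟨𝟙 _, f.f, by
    rw [f.w, CategoryTheory.Functor.map_id]
    rfl⟩
  map_id y := rfl
  map_comp f g := by
    apply Tot.Hom.ext
    · exact (Category.comp_id _).symm
    · rfl

/-- the natural transformation -/
def nat : 𝟭 (Tot V) ⟶ RR V ⋙ LL V where
  app y := ⟨homOfLE (Fin.le_last y.m), 𝟙 y.a,
    (congrArg (fun k => k ((V.map (homOfLE (Fin.le_last y.m))).app (op y.a) y.x))
      ((V.obj (Fin.last n)).map_id (op y.a))).symm⟩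
  naturality y z f := by
    apply Tot.Hom.ext
    · exact Subsingleton.elim _ _
    · show f.g ≫ 𝟙 _ = 𝟙 _ ≫ f.g
      rw [Category.comp_id, Category.id_comp]

theorem contrTot (hZR : S_ZR.{u}) (h : Asph (V.obj (Fin.last n))) : Contr (nerve (Tot V)) :=
  hZR (LL V) (RR V) (Zigzag.of_zag (Zag.of_inv (nat V))) h

end Ret

section Iso

theorem acComp {X Y Z : SSet.{u}} (x : X ⟶ Y) (f : Y ⟶ Z) [IsIso f] (h : Ac x) : Ac (x ≫ f) := by
  intro K L q hq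
  have h1 : HasLiftingProperty x q := h q hq
  infer_instance

theorem contrIso {X Y : SSet.{u}} (f : X ⟶ Y) [IsIso f] (h : Contr X) : Contr Y := by
  obtain ⟨x, hx⟩ := h
  exact ⟨x ≫ f, acComp x f hx⟩

theorem pbExt {W Z X B : SSet.{u}} {fst : W ⟶ Z} {snd : W ⟶ X} {r : Z ⟶ B} {b : X ⟶ B}
    (h : IsPullback fst snd r b) {m : SimplexCategoryᵒᵖ} {w w' : W.obj m} (h1 : fst.app m w = fst.app m w')
    (h2 : snd.app m w = snd.app m w') : w = w' :=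
  Types.ext_of_isPullback (h.map ((evaluation _ _).obj m)) h1 h2

theorem pbW {W Z X B : SSet.{u}} {fst : W ⟶ Z} {snd : W ⟶ X} {r : Z ⟶ B} {b : X ⟶ B}
    (h : IsPullback fst snd r b) {m : SimplexCategoryᵒᵖ} (w : W.obj m) :
    r.app m (fst.app m w) = b.app m (snd.app m w) := by
  have h1 := congrArg (fun f => f.app m) h.w
  exact congrArg (fun f => f w) h1

/-- a criterion for a square to give an isomorphism to a given pullback -/
theorem isoCrit {N W Z X B : SSet.{u}} {fst : W ⟶ Z} {snd : W ⟶ X} {r : Z ⟶ B} {b : X ⟶ B}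
    (h : IsPullback fst snd r b) (f : N ⟶ Z) (g : N ⟶ X) (hw : f ≫ r = g ≫ b)
    (hi : ∀ (k : ℕ) (x y : N _⦋k⦌), f.app _ x = f.app _ y → g.app _ x = g.app _ y → x = y)
    (hs : ∀ (k : ℕ) (z : Z _⦋k⦌) (x : X _⦋k⦌), r.app _ z = b.app _ x → ∃ y : N _⦋k⦌, f.app _ y = z ∧ g.app _ y = x) :
    ∃ e : N ⟶ W, IsIso e := by
  refine ⟨h.lift f g hw, ?_⟩
  have e1 : h.lift f g hw ≫ fst = f := h.lift_fst f g hw
  have e2 : h.lift f g hw ≫ snd = g := h.lift_snd f g hw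
  have f1 : ∀ (m : SimplexCategoryᵒᵖ) (x : N.obj m), fst.app m ((h.lift f g hw).app m x) = f.app m x := by
    intro m x
    exact congrArg (fun T => T.app m x) e1
  have f2 : ∀ (m : SimplexCategoryᵒᵖ) (x : N.obj m), snd.app m ((h.lift f g hw).app m x) = g.app m x := by
    intro m x
    exact congrArg (fun T => T.app m x) e2
  rw [NatTrans.isIso_iff_isIso_app]
  rintro ⟨⟨k⟩⟩
  rw [isIso_iff_bijective]
  constructor
  · intro x y hxy
    apply hi k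
    · rw [← f1, ← f1, hxy]
    · rw [← f2, ← f2, hxy]
  · intro w
    obtain ⟨y, h1, h2⟩ := hs k (fst.app _ w) (snd.app _ w) (pbW h w)
    refine ⟨y, pbExt h ?_ ?_⟩
    · rw [f1, h1]
    · rw [f2, h2]

end Iso

section Main

variable {A M : Type u} [SmallCategory A] [SmallCategory M]

/-- the chain of a simplex of the standard simplex -/
def chain {n k : ℕ} (t : (Δ[n] : SSet.{u}) _⦋k⦌) : Fin (k + 1) ⥤ Fin (n + 1) :=
  (SimplexCategory.toCat.map (SSet.stdSimplex.objEquiv t)).toFunctor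

/-- the simplex of a chain -/
def simp {n : ℕ} {m : SimplexCategoryᵒᵖ} (s : Fin (m.unop.len + 1) ⥤ Fin (n + 1)) : (Δ[n] : SSet.{u}).obj m :=
  SSet.stdSimplex.objMk ⟨s.obj, fun _ _ h => leOfHom (s.map (homOfLE h))⟩

theorem chain_simp {n k : ℕ} (s : Fin (k + 1) ⥤ Fin (n + 1)) : chain (simp.{u} (m := op ⦋k⦌) s) = s := by
  apply CategoryTheory.Functor.ext
  · intro i j f
    exact Subsingleton.elim _ _
  · intro i
    rfl

theorem simp_chain {n k : ℕ} (t : (Δ[n] : SSet.{u}) _⦋k⦌) : simp (m := op ⦋k⦌) (chain t) = t := by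
  apply SSet.stdSimplex.objEquiv.injective
  ext i : 3
  rfl

theorem b_app {n k : ℕ} (b : Δ[n] ⟶ nerve M) (t : (Δ[n] : SSet.{u}) _⦋k⦌) :
    b.app _ t = (chain t ⋙ (SSet.yonedaEquiv b : Fin (n + 1) ⥤ M) : Fin (k + 1) ⥤ M) := by
  have h1 : b = SSet.yonedaEquiv.symm (SSet.yonedaEquiv b) := (Equiv.symm_apply_apply _ _).symm
  conv_lhs => rw [h1]
  rfl

/-- the map of the nerve of the total category to the simplex -/
def gg {n : ℕ} (V : Fin (n + 1) ⥤ Aᵒᵖ ⥤ Type u) : nerve (Tot V) ⟶ (Δ[n] : SSet.{u}) where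
  app m := ↾fun c => simp (show Fin (m.unop.len + 1) ⥤ Fin (n + 1) from
    (show Fin (m.unop.len + 1) ⥤ Tot V from c) ⋙ Tot.fst V)
  naturality m m' f := by
    ext c
    apply SSet.stdSimplex.objEquiv.injective
    ext i : 3
    rfl

end Main

theorem tot (hZR : S_ZR.{u}) : S_TOT.{u} := by
  intro A M _ _ U hU n b W fst snd hpb
  let σ : Fin (n + 1) ⥤ M := SSet.yonedaEquiv b
  have hb : ∀ {k : ℕ} (t : (Δ[n] : SSet.{u}) _⦋k⦌), b.app _ t = (chain t ⋙ σ : Fin (k + 1) ⥤ M) :=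
    fun t => b_app b t
  have hc : Contr (nerve (Tot (σ ⋙ U))) := contrTot (σ ⋙ U) hZR (hU _)
  have hw : nerveMap (TT σ U) ≫ nerveMap (Tot.fst U) = gg (σ ⋙ U) ≫ b := by
    ext ⟨⟨k⟩⟩ c
    have h1 := hb ((gg (σ ⋙ U)).app (op ⦋k⦌) c)
    have h2 : chain ((gg (σ ⋙ U)).app (op ⦋k⦌) c) = (show Fin (k + 1) ⥤ Tot (σ ⋙ U) from c) ⋙ Tot.fst (σ ⋙ U) :=
      chain_simp _
    rw [h2] at h1
    exact h1.symm
  have hi : ∀ (k : ℕ) (x y : nerve (Tot (σ ⋙ U)) _⦋k⦌), (nerveMap (TT σ U)).app _ x = (nerveMap (TT σ U)).app _ y →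
      (gg (σ ⋙ U)).app _ x = (gg (σ ⋙ U)).app _ y → x = y := by
    intro k x y h1 h2
    refine unF σ U (show Fin (k + 1) ⥤ Tot (σ ⋙ U) from x) (show Fin (k + 1) ⥤ Tot (σ ⋙ U) from y) h1 ?_
    have h3 := congrArg chain h2
    have h4 : ∀ c : nerve (Tot (σ ⋙ U)) _⦋k⦌, chain ((gg (σ ⋙ U)).app (op ⦋k⦌) c) =
      (show Fin (k + 1) ⥤ Tot (σ ⋙ U) from c) ⋙ Tot.fst (σ ⋙ U) := fun c => chain_simp _
    rw [h4, h4] at h3
    exact h3
  have hs : ∀ (k : ℕ) (z : nerve (Tot U) _⦋k⦌) (x : (Δ[n] : SSet.{u}) _⦋k⦌),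
      (nerveMap (Tot.fst U)).app _ z = b.app _ x →
      ∃ y : nerve (Tot (σ ⋙ U)) _⦋k⦌, (nerveMap (TT σ U)).app _ y = z ∧ (gg (σ ⋙ U)).app _ y = x := by
    intro k z x h
    rw [hb x] at h
    obtain ⟨d, hd1, hd2⟩ := exF σ U (show Fin (k + 1) ⥤ Tot U from z) (chain x) h
    refine ⟨d, hd1, ?_⟩
    have h5 : (gg (σ ⋙ U)).app (op ⦋k⦌) (show nerve (Tot (σ ⋙ U)) _⦋k⦌ from d) = simp (m := op ⦋k⦌) (chain x) := by
      rw [← hd2]
      rfl
    rw [simp_chain] at h5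
    exact h5
  obtain ⟨e, he⟩ := isoCrit hpb (nerveMap (TT σ U)) (gg (σ ⋙ U)) hw hi hs
  exact contrIso e hc

end Pool.Agent.Q153.PM.Tt

namespace Pool.Agent.Q153.PM

/-- job TOT -/
theorem tot (hZR : Pool.Agent.Q213.PM.S_ZR.{u}) : Pool.Agent.Q213.PM.S_TOT.{u} := Tt.tot hZR

end Pool.Agent.Q153.PM
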